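import Pool.Agent.Lib.MP_00b317_lc.Core
import Pool.Agent.Lib.MP_00b317_lc.Null

/-!
# There is no translation-invariant Borel hull on the null ideal or on the meager ideal

We prove in ZFC (no extra axioms) that for every `n ≥ 1` no Borel hull operation on the ideal of
Lebesgue null subsets of `ℝ^n`, and no Borel hull operation on the ideal of meager subsets of
`ℝ^n`, is translation invariant.
-/

namespace Pool.Agent.Results.MP_00b317_lc.NoInvariantBorelHull

open Set MeasureTheory

/-- The family of Lebesgue null subsets of `ℝ^n`. -/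
def nullSets (n : ℕ) : Set (Set (Fin n → ℝ)) := {A | volume A = 0}

/-- The family of meager subsets of `ℝ^n`. -/
def meagerSets (n : ℕ) : Set (Set (Fin n → ℝ)) := {A | IsMeagre A}

/-- `ψ` is a Borel hull operation on the family `I` of subsets of `ℝ^n`: for every `A` in `I` the
set `ψ A` is in `I`, is Borel, and contains `A`. -/
structure IsBorelHull {n : ℕ} (I : Set (Set (Fin n → ℝ)))
    (ψ : Set (Fin n → ℝ) → Set (Fin n → ℝ)) : Prop where
  mem : ∀ A ∈ I, ψ A ∈ I
  borel : ∀ A ∈ I, MeasurableSet[borel (Fin n → ℝ)] (ψ A)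
  subset : ∀ A ∈ I, A ⊆ ψ A

/-- `ψ` is translation invariant on `I`: `ψ (A + x) = ψ A + x` for all `A` in `I` and all `x`. -/
def IsTranslationInvariant {n : ℕ} (I : Set (Set (Fin n → ℝ)))
    (ψ : Set (Fin n → ℝ) → Set (Fin n → ℝ)) : Prop :=
  ∀ A ∈ I, ∀ x : Fin n → ℝ, ψ ((fun a => a + x) '' A) = (fun a => a + x) '' ψ A

/-- From a translation-invariant Borel hull on `I` and a subgroup `G` of the line such that the
cylinder over the `G`-invariant set `A` is in `I`, we get a `G`-invariant Borel subset of the line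
containing `A` over which the cylinder is in `I`. -/
theorem exists_invariant {n : ℕ} (i0 : Fin n) (I : Set (Set (Fin n → ℝ)))
    (ψ : Set (Fin n → ℝ) → Set (Fin n → ℝ)) (hψ : IsBorelHull I ψ)
    (hinv : IsTranslationInvariant I ψ) (G : AddSubgroup ℝ) (A : Set ℝ)
    (hA : ∀ g ∈ G, ∀ x ∈ A, x + g ∈ A) (hAI : (fun v : Fin n → ℝ => v i0) ⁻¹' A ∈ I) :
    ∃ B : Set ℝ, MeasurableSet B ∧ (∀ g ∈ G, ∀ x ∈ B, x + g ∈ B) ∧ A ⊆ B ∧
      (fun v : Fin n → ℝ => v i0) ⁻¹' B ∈ I := by
  classical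
  set A' : Set (Fin n → ℝ) := (fun v => v i0) ⁻¹' A with hA'
  -- `A'` and hence `ψ A'` are invariant under the vectors with `i0`-th coordinate in `G`
  have h1 : ∀ x : Fin n → ℝ, x i0 ∈ G → (fun a => a + x) '' A' = A' := by
    intro x hx
    apply Subset.antisymm
    · rintro _ ⟨a, ha, rfl⟩
      exact hA _ hx _ ha
    · intro a ha
      refine ⟨a - x, ?_, by simp⟩
      show (a - x) i0 ∈ A
      rw [Pi.sub_apply, sub_eq_add_neg]
      exact hA _ (G.neg_mem hx) _ ha
  have h2 : ∀ x : Fin n → ℝ, x i0 ∈ G → ∀ b ∈ ψ A', b + x ∈ ψ A' := by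
    intro x hx b hb
    have h3 := hinv A' hAI x
    rw [h1 x hx] at h3
    rw [h3]
    exact ⟨b, hb, rfl⟩
  have hBmeas : MeasurableSet (ψ A') := by
    have := hψ.borel A' hAI
    rwa [← BorelSpace.measurable_eq] at this
  refine ⟨(fun t => Pi.single i0 t) ⁻¹' ψ A', ?_, ?_, ?_, ?_⟩
  · exact (continuous_single i0).measurable hBmeas
  · intro g hg x hx
    have h4 := h2 (Pi.single i0 g) (by simpa using hg) _ hx
    show Pi.single i0 (x + g) ∈ ψ A'
    rw [Pi.single_add]
    exact h4
  · intro x hx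
    apply hψ.subset A' hAI
    show (Pi.single i0 x : Fin n → ℝ) i0 ∈ A
    simpa using hx
  · have h5 : (fun v : Fin n → ℝ => v i0) ⁻¹' ((fun t => Pi.single i0 t) ⁻¹' ψ A') = ψ A' := by
      ext v
      constructor
      · intro hv
        have h6 := h2 (v - Pi.single i0 (v i0)) (by simp [G.zero_mem]) _ hv
        simpa using h6
      · intro hv
        have h6 := h2 (Pi.single i0 (v i0) - v) (by simp [G.zero_mem]) _ hv
        show Pi.single i0 (v i0) ∈ ψ A'
        simpa using h6
    rw [h5]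
    exact hψ.mem A' hAI

/-- A Borel subset of the line is meager if the cylinder over it is meager. -/
theorem isMeagre_of_cylinder {n : ℕ} (i0 : Fin n) (B : Set ℝ) (hB : MeasurableSet B)
    (h : IsMeagre ((fun v : Fin n → ℝ => v i0) ⁻¹' B)) : IsMeagre B := by
  have hev : Filter.Tendsto (fun v : Fin n → ℝ => v i0) (residual _) (residual ℝ) :=
    tendsto_residual_of_isOpenMap (continuous_apply i0) (isOpenMap_eval i0)
  obtain ⟨U, hUo, hU⟩ := hB.residualEq_isOpen
  have hUe : U = ∅ := by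
    by_contra hne
    obtain ⟨t, ht⟩ := nonempty_iff_ne_empty.2 hne
    have h1 : IsOpen ((fun v : Fin n → ℝ => v i0) ⁻¹' U) := hUo.preimage (continuous_apply i0)
    apply not_isMeagre_of_isOpen h1 ⟨fun _ => t, ht⟩
    have h2 := hev.eventually hU
    filter_upwards [h, h2] with v hv1 hv2 hv3
    exact hv1 (hv2.mpr hv3)
  rw [hUe] at hU
  filter_upwards [hU] with y hy hyB
  exact hy.mp hyB

/-- **Main theorem.** For every `n ≥ 1` there is no translation-invariant Borel hull operation on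
the null subsets of `ℝ^n` and there is none on the meager subsets of `ℝ^n`. -/
theorem result (n : ℕ) (hn : 1 ≤ n) :
    (¬ ∃ ψ : Set (Fin n → ℝ) → Set (Fin n → ℝ),
      IsBorelHull (nullSets n) ψ ∧ IsTranslationInvariant (nullSets n) ψ) ∧
    (¬ ∃ ψ : Set (Fin n → ℝ) → Set (Fin n → ℝ),
      IsBorelHull (meagerSets n) ψ ∧ IsTranslationInvariant (meagerSets n) ψ) := by
  constructor
  · rintro ⟨ψ, hψ, hinv⟩
    obtain ⟨B, hB1, hB2, hB3, hB4⟩ := exists_invariant ⟨0, hn⟩ _ ψ hψ hinv
      Lib.MP_00b317_lc.Null.H (Lib.MP_00b317_lc.Null.H : Set ℝ)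
      (fun g hg x hx => Lib.MP_00b317_lc.Null.H.add_mem hx hg)
      ((Measure.quasiMeasurePreserving_eval (fun _ : Fin n => (volume : Measure ℝ)) ⟨0, hn⟩
        ).preimage_null Lib.MP_00b317_lc.Null.volume_H)
    have hBu := Lib.MP_00b317_lc.Null.borel_invariant_eq_univ B hB1 hB2 hB3
    rw [hBu, preimage_univ] at hB4
    have h1 : (volume (univ : Set (Fin n → ℝ))) = 0 := hB4
    exact (isOpen_univ.measure_pos volume univ_nonempty).ne' h1
  · rintro ⟨ψ, hψ, hinv⟩
    obtain ⟨B, hB1, hB2, hB3, hB4⟩ := exists_invariant ⟨0, hn⟩ _ ψ hψ hinv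
      Lib.MP_00b317_lc.G Lib.MP_00b317_lc.A
      (fun g hg x hx => Lib.MP_00b317_lc.A_inv hg hx)
      (IsMeagre.preimage_of_isOpenMap (continuous_apply _) (isOpenMap_eval _)
        Lib.MP_00b317_lc.isMeagre_A)
    exact Lib.MP_00b317_lc.core B hB1.analyticSet (isMeagre_of_cylinder _ B hB1 hB4) hB2 hB3

end Pool.Agent.Results.MP_00b317_lc.NoInvariantBorelHull
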